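import Mathlib

/-!
# Diameter over average distance is maximised by a balanced bug
-/

set_option autoImplicit false

namespace Pool.Agent.Results.MP_aedb6c_co.BalancedBug

open Finset

/-- The diameter `D` of a finite connected graph: the largest distance. -/
noncomputable def diameter {V : Type} [Fintype V] (G : SimpleGraph V) : ℕ :=
  univ.sup fun x : V × V => G.dist x.1 x.2

/-- The average distance: the mean of the distances over the pairs of distinct vertices (the sum
over the ordered pairs divided by `n (n - 1)`). -/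
noncomputable def avgDist {V : Type} [Fintype V] (G : SimpleGraph V) : ℝ :=
  (∑ u, ∑ v, (G.dist u v : ℝ)) / ((Fintype.card V : ℝ) * ((Fintype.card V : ℝ) - 1))

/-- The ratio of the diameter to the average distance. -/
noncomputable def ratio {V : Type} [Fintype V] (G : SimpleGraph V) : ℝ :=
  (diameter G : ℝ) / avgDist G

/-- The relation defining the edges of a bug: the complete graph on `Fin p` without the edge
between `u = 0` and `v = 1`, a path on `Fin k₁` whose vertex `0` is joined to `u`, and a path on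
`Fin k₂` whose vertex `0` is joined to `v`. -/
def bugRel (p k₁ k₂ : ℕ) : Fin p ⊕ Fin k₁ ⊕ Fin k₂ → Fin p ⊕ Fin k₁ ⊕ Fin k₂ → Prop
  | .inl a, .inl b => ¬ (a.1 = 0 ∧ b.1 = 1) ∧ ¬ (a.1 = 1 ∧ b.1 = 0)
  | .inl a, .inr (.inl i) => a.1 = 0 ∧ i.1 = 0
  | .inl a, .inr (.inr i) => a.1 = 1 ∧ i.1 = 0
  | .inr _, .inl _ => False
  | .inr (.inl i), .inr (.inl j) => i.1 + 1 = j.1
  | .inr (.inl _), .inr (.inr _) => False
  | .inr (.inr _), .inr (.inl _) => False
  | .inr (.inr i), .inr (.inr j) => i.1 + 1 = j.1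

/-- The bug with parameters `p`, `k₁`, `k₂`. -/
def bug (p k₁ k₂ : ℕ) : SimpleGraph (Fin p ⊕ Fin k₁ ⊕ Fin k₂) :=
  SimpleGraph.fromRel (bugRel p k₁ k₂)

/-! ### level functions -/

/-- lower bound of the distance between different vertices on levels `a` and `b` -/
def gap (a b : ℕ) : ℕ := max 1 ((a - b) + (b - a))

lemma gap_comm (a b : ℕ) : gap a b = gap b a := by
  unfold gap; rw [Nat.add_comm]

lemma gap_self (a : ℕ) : gap a a = 1 := by simp [gap]

/-- sum of the gaps between level `i` and the levels `0, ..., D` -/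
def rowSum (D i : ℕ) : ℕ := ∑ j ∈ range (D + 1), gap i j

/-- sum of the gaps between the levels `0, ..., D` -/
def allSum (D : ℕ) : ℕ :=
  ∑ i ∈ range (D + 1), ∑ j ∈ range (D + 1), if i = j then 0 else gap i j

lemma rowSum_eq (D i : ℕ) (hi : i ≤ D) :
    2 * rowSum D i = 2 + i * (i + 1) + (D - i) * (D - i + 1) := by
  obtain ⟨e, rfl⟩ : ∃ e, D = i + e := ⟨D - i, by omega⟩
  have h1 : ∀ e, 2 * rowSum (i + e) i = 2 + i * (i + 1) + e * (e + 1) := by
    intro e
    induction e with
    | zero =>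
      unfold rowSum
      rw [Nat.add_zero, sum_range_succ, gap_self]
      have h2 : ∀ m, m ≤ i → 2 * ∑ j ∈ range m, gap i j + (i - m) * (i - m + 1) = i * (i + 1) := by
        intro m
        induction m with
        | zero => intro _; simp
        | succ m ih =>
          intro hm
          have h3 := ih (by omega)
          rw [sum_range_succ]
          have h4 : gap i m = i - m := by unfold gap; omega
          rw [h4]
          obtain ⟨q, hq⟩ : ∃ q, i = m + 1 + q := ⟨i - (m + 1), by omega⟩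
          have e1 : i - m = q + 1 := by omega
          have e2 : i - (m + 1) = q := by omega
          rw [e1] at h3 ⊢
          rw [e2]
          nlinarith
      have h5 := h2 i le_rfl
      simp only [Nat.sub_self, Nat.zero_add, Nat.zero_mul, Nat.add_zero] at h5
      omega
    | succ e ih =>
      unfold rowSum at ih ⊢
      rw [show i + (e + 1) + 1 = (i + e + 1) + 1 by ring, sum_range_succ]
      have h4 : gap i (i + e + 1) = e + 1 := by unfold gap; omega
      rw [h4, Nat.mul_add, ih]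
      ring
  rw [h1 e]
  have e3 : i + e - i = e := by omega
  rw [e3]

lemma rowSum_min (D c : ℕ) (hc : c ≤ D) (h1 : 2 * c ≤ D + 1) (h2 : D ≤ 2 * c + 1) (i : ℕ)
    (hi : i ≤ D) : rowSum D c ≤ rowSum D i := by
  have e1 := rowSum_eq D c hc
  have e2 := rowSum_eq D i hi
  have key : c * (c + 1) + (D - c) * (D - c + 1) ≤ i * (i + 1) + (D - i) * (D - i + 1) := by
    zify [hc, hi]
    have h3 : (2 * (c : ℤ) - D) ^ 2 ≤ (2 * i - D) ^ 2 := by
      have h4 : 2 * (c : ℤ) - D = 0 ∨ 2 * (c : ℤ) - D = 1 ∨ 2 * (c : ℤ) - D = -1 := by omega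
      rcases h4 with h | h | h
      · rw [h]; positivity
      · have : (2 * (i : ℤ) - D) ≠ 0 := by omega
        have := Int.one_le_abs this
        rw [h, ← sq_abs (2 * (i : ℤ) - D)]
        nlinarith
      · have : (2 * (i : ℤ) - D) ≠ 0 := by omega
        have := Int.one_le_abs this
        rw [h, ← sq_abs (2 * (i : ℤ) - D)]
        nlinarith
    nlinarith
  omega

section core

variable {V : Type} [Fintype V] [DecidableEq V]

/-- the sum of the gaps over the ordered pairs of distinct vertices -/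
def total (l : V → ℕ) : ℕ := ∑ u, ∑ v, if u = v then 0 else gap (l u) (l v)

lemma total_split (l : V → ℕ) (D : ℕ) (rep : ℕ → V) (hrep : ∀ i, i ≤ D → l (rep i) = i) :
    total l = allSum D + 2 * ∑ u ∈ ((range (D + 1)).image rep)ᶜ, rowSum D (l u) +
      ∑ u ∈ ((range (D + 1)).image rep)ᶜ, ∑ v ∈ ((range (D + 1)).image rep)ᶜ,
        if u = v then 0 else gap (l u) (l v) := by
  set A := (range (D + 1)).image rep with hA
  have hinj : Set.InjOn rep (range (D + 1) : Set ℕ) := by
    intro a ha b hb hab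
    have h1 := hrep a (by simpa [Nat.lt_succ_iff] using ha)
    have h2 := hrep b (by simpa [Nat.lt_succ_iff] using hb)
    rw [← h1, ← h2, hab]
  have hsplit : ∀ g : V → ℕ, ∑ u, g u = ∑ u ∈ A, g u + ∑ u ∈ Aᶜ, g u := fun g =>
    (Finset.sum_add_sum_compl A g).symm
  have hAsum : ∀ g : V → ℕ, ∑ u ∈ A, g u = ∑ i ∈ range (D + 1), g (rep i) := by
    intro g
    rw [hA, Finset.sum_image hinj]
  have hrow : ∀ u ∈ Aᶜ, ∑ v ∈ A, (if u = v then 0 else gap (l u) (l v)) = rowSum D (l u) := by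
    intro u hu
    rw [Finset.mem_compl] at hu
    unfold rowSum
    rw [hAsum]
    apply Finset.sum_congr rfl
    intro i hi
    rw [if_neg, hrep i (by simpa [Nat.lt_succ_iff] using hi)]
    rintro rfl
    exact hu (Finset.mem_image_of_mem rep hi)
  have hAA : ∑ u ∈ A, ∑ v ∈ A, (if u = v then 0 else gap (l u) (l v)) = allSum D := by
    unfold allSum
    rw [hAsum]
    apply Finset.sum_congr rfl
    intro i hi
    rw [hAsum]
    apply Finset.sum_congr rfl
    intro j hj
    have h1 := hrep i (by simpa [Nat.lt_succ_iff] using hi)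
    have h2 := hrep j (by simpa [Nat.lt_succ_iff] using hj)
    by_cases hij : i = j
    · rw [if_pos (by rw [hij]), if_pos hij]
    · rw [if_neg hij, if_neg, h1, h2]
      intro h
      exact hij (by rw [← h1, ← h2, h])
  have hBA : ∑ u ∈ Aᶜ, ∑ v ∈ A, (if u = v then 0 else gap (l u) (l v)) =
      ∑ u ∈ Aᶜ, rowSum D (l u) := Finset.sum_congr rfl hrow
  have hAB : ∑ u ∈ A, ∑ v ∈ Aᶜ, (if u = v then 0 else gap (l u) (l v)) =
      ∑ u ∈ Aᶜ, rowSum D (l u) := by
    rw [Finset.sum_comm, ← hBA]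
    apply Finset.sum_congr rfl
    intro u _
    apply Finset.sum_congr rfl
    intro v _
    rw [gap_comm (l v) (l u)]
    by_cases h : u = v
    · rw [if_pos h, if_pos h.symm]
    · rw [if_neg h, if_neg (fun h' => h h'.symm)]
  unfold total
  rw [hsplit]
  have h1 : ∑ u ∈ A, ∑ v, (if u = v then 0 else gap (l u) (l v)) =
      allSum D + ∑ u ∈ Aᶜ, rowSum D (l u) := by
    rw [← hAA, ← hAB, ← Finset.sum_add_distrib]
    exact Finset.sum_congr rfl (fun u _ => hsplit _)
  have h2 : ∑ u ∈ Aᶜ, ∑ v, (if u = v then 0 else gap (l u) (l v)) =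
      ∑ u ∈ Aᶜ, rowSum D (l u) +
        ∑ u ∈ Aᶜ, ∑ v ∈ Aᶜ, (if u = v then 0 else gap (l u) (l v)) := by
    rw [← hBA, ← Finset.sum_add_distrib]
    exact Finset.sum_congr rfl (fun u _ => hsplit _)
  rw [h1, h2]
  ring

lemma card_rest (l : V → ℕ) (D : ℕ) (rep : ℕ → V) (hrep : ∀ i, i ≤ D → l (rep i) = i) :
    (((range (D + 1)).image rep)ᶜ : Finset V).card = Fintype.card V - (D + 1) := by
  rw [Finset.card_compl, Finset.card_image_of_injOn, Finset.card_range]
  intro a ha b hb hab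
  have h1 := hrep a (by simpa [Nat.lt_succ_iff] using ha)
  have h2 := hrep b (by simpa [Nat.lt_succ_iff] using hb)
  rw [← h1, ← h2, hab]

/-- the least possible value of the sum of the distances -/
def least (n D c : ℕ) : ℕ :=
  allSum D + 2 * ((n - (D + 1)) * rowSum D c) + (n - (D + 1)) * (n - (D + 1) - 1)

lemma total_lower (l : V → ℕ) (D c : ℕ) (hl : ∀ v, l v ≤ D)
    (rep : ℕ → V) (hrep : ∀ i, i ≤ D → l (rep i) = i) (hc : c ≤ D) (h1 : 2 * c ≤ D + 1)
    (h2 : D ≤ 2 * c + 1) : least (Fintype.card V) D c ≤ total l := by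
  rw [total_split l D rep hrep]
  unfold least
  have hcard := card_rest l D rep hrep
  set B := ((range (D + 1)).image rep)ᶜ with hB
  rw [← hcard]
  have e1 : B.card * rowSum D c ≤ ∑ u ∈ B, rowSum D (l u) := by
    rw [← smul_eq_mul]
    exact Finset.card_nsmul_le_sum _ _ _ (fun u _ => rowSum_min D c hc h1 h2 (l u) (hl u))
  have e2 : B.card * (B.card - 1) ≤
      ∑ u ∈ B, ∑ v ∈ B, (if u = v then 0 else gap (l u) (l v)) := by
    rw [← smul_eq_mul]
    apply Finset.card_nsmul_le_sum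
    intro u hu
    rw [← Finset.add_sum_erase _ _ hu, if_pos rfl, Nat.zero_add, ← Finset.card_erase_of_mem hu,
      Finset.card_eq_sum_ones]
    apply Finset.sum_le_sum
    intro v hv
    rw [if_neg (Finset.ne_of_mem_erase hv).symm]
    unfold gap
    exact le_max_left _ _
  omega

lemma total_exact (l : V → ℕ) (D c : ℕ)
    (rep : ℕ → V) (hrep : ∀ i, i ≤ D → l (rep i) = i)
    (hrest : ∀ v, (∀ i, i ≤ D → rep i ≠ v) → l v = c) :
    total l = least (Fintype.card V) D c := by
  rw [total_split l D rep hrep]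
  unfold least
  have hcard := card_rest l D rep hrep
  set B := ((range (D + 1)).image rep)ᶜ with hB
  have hBl : ∀ u ∈ B, l u = c := by
    intro u hu
    apply hrest
    intro i hi h
    rw [hB, Finset.mem_compl] at hu
    exact hu (Finset.mem_image.2 ⟨i, by simpa [Nat.lt_succ_iff] using hi, h⟩)
  rw [← hcard]
  have e1 : ∑ u ∈ B, rowSum D (l u) = B.card * rowSum D c := by
    rw [← smul_eq_mul, ← Finset.sum_const]
    exact Finset.sum_congr rfl (fun u hu => by rw [hBl u hu])
  have e2 : ∑ u ∈ B, ∑ v ∈ B, (if u = v then 0 else gap (l u) (l v)) =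
      B.card * (B.card - 1) := by
    rw [← smul_eq_mul, ← Finset.sum_const]
    apply Finset.sum_congr rfl
    intro u hu
    rw [← Finset.add_sum_erase _ _ hu, if_pos rfl, Nat.zero_add, ← Finset.card_erase_of_mem hu,
      Finset.card_eq_sum_ones]
    apply Finset.sum_congr rfl
    intro v hv
    rw [if_neg (Finset.ne_of_mem_erase hv).symm, hBl u hu, hBl v (Finset.mem_of_mem_erase hv),
      gap_self]
  rw [e1, e2]

end core

/-! ### graphs with a level function -/

lemma walk_level {V : Type} (G : SimpleGraph V) (l : V → ℕ)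
    (hl : ∀ u v, G.Adj u v → l v ≤ l u + 1) {a b : V} (w : G.Walk a b) :
    l b ≤ l a + w.length := by
  induction w with
  | nil => simp
  | cons h w ih =>
    have := hl _ _ h
    rw [SimpleGraph.Walk.length_cons]
    omega

lemma walk_between {V : Type} (G : SimpleGraph V) (l : V → ℕ)
    (hl : ∀ u v, G.Adj u v → l v ≤ l u + 1) {a b : V} (w : G.Walk a b) :
    ∀ i, l a ≤ i → i ≤ l b → ∃ z, l z = i := by
  induction w with
  | nil => intro i h1 h2; exact ⟨_, le_antisymm h1 h2⟩
  | @cons x y z h w ih =>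
    intro i h1 h2
    rcases Nat.eq_or_lt_of_le h1 with h3 | h3
    · exact ⟨_, h3⟩
    · have := hl _ _ h
      exact ih i (by omega) h2

lemma le_diameter {V : Type} [Fintype V] (G : SimpleGraph V) (u v : V) :
    G.dist u v ≤ diameter G :=
  Finset.le_sup (f := fun x : V × V => G.dist x.1 x.2) (Finset.mem_univ (u, v))

lemma exists_diameter {V : Type} [Fintype V] [Nonempty V] (G : SimpleGraph V) :
    ∃ u v, G.dist u v = diameter G := by
  obtain ⟨x, -, hx⟩ := Finset.exists_mem_eq_sup (Finset.univ : Finset (V × V))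
    Finset.univ_nonempty (fun x : V × V => G.dist x.1 x.2)
  exact ⟨x.1, x.2, hx.symm⟩

/-- lower bound for the sum of the distances in a connected graph -/
lemma sum_dist_lower {V : Type} [Fintype V] [DecidableEq V] (G : SimpleGraph V)
    (hG : G.Connected) (D c : ℕ) (hD : diameter G = D) (hc : c ≤ D)
    (h1 : 2 * c ≤ D + 1) (h2 : D ≤ 2 * c + 1) :
    D + 1 ≤ Fintype.card V ∧ least (Fintype.card V) D c ≤ ∑ u, ∑ v, G.dist u v := by
  have := hG.nonempty
  obtain ⟨x, y, hxy⟩ := exists_diameter G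
  rw [hD] at hxy
  set l : V → ℕ := fun v => G.dist x v with hl
  have hlip : ∀ u v, l v ≤ l u + G.dist u v := fun u v => hG.dist_triangle
  have hadj : ∀ u v, G.Adj u v → l v ≤ l u + 1 := by
    intro u v h
    have h3 := hlip u v
    rw [SimpleGraph.dist_eq_one_iff_adj.2 h] at h3
    exact h3
  obtain ⟨w⟩ := hG.preconnected x y
  have hex : ∀ i, i ≤ D → ∃ z, l z = i := by
    intro i hi
    apply walk_between G l hadj w i
    · simp [hl]
    · rw [hl]
      simp only
      rw [hxy]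
      exact hi
  have hrep : ∃ rep : ℕ → V, ∀ i, i ≤ D → l (rep i) = i := by
    choose f hf using hex
    exact ⟨fun i => if h : i ≤ D then f i h else x, fun i hi => by
      simp only [dif_pos hi]; exact hf i hi⟩
  obtain ⟨rep, hrep⟩ := hrep
  have hlD : ∀ v, l v ≤ D := fun v => hD ▸ le_diameter G x v
  constructor
  · have h3 : Set.InjOn rep (range (D + 1) : Set ℕ) := by
      intro a ha b hb hab
      have h1 := hrep a (by simpa [Nat.lt_succ_iff] using ha)
      have h2 := hrep b (by simpa [Nat.lt_succ_iff] using hb)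
      rw [← h1, ← h2, hab]
    have h4 := Finset.card_image_of_injOn h3
    rw [Finset.card_range] at h4
    rw [← h4]
    exact Finset.card_le_univ _
  · refine (total_lower l D c hlD rep hrep hc h1 h2).trans ?_
    unfold total
    apply Finset.sum_le_sum
    intro u _
    apply Finset.sum_le_sum
    intro v _
    split_ifs with huv
    · exact Nat.zero_le _
    · unfold gap
      have h3 := hlip u v
      have h4 := hlip v u
      rw [SimpleGraph.dist_comm] at h4
      have h5 := hG.pos_dist_of_ne huv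
      apply max_le
      · omega
      · omega

/-! ### the bug -/

/-- level function of the bug -/
def bugLevel (p k₁ k₂ : ℕ) : Fin p ⊕ Fin k₁ ⊕ Fin k₂ → ℕ
  | .inl a => if a.1 = 0 then k₁ else if a.1 = 1 then k₁ + 2 else k₁ + 1
  | .inr (.inl i) => k₁ - 1 - i.1
  | .inr (.inr i) => k₁ + 3 + i.1

lemma bug_adj (p k₁ k₂ : ℕ) (x y : Fin p ⊕ Fin k₁ ⊕ Fin k₂) :
    (bug p k₁ k₂).Adj x y ↔ x ≠ y ∧ bugLevel p k₁ k₂ x ≤ bugLevel p k₁ k₂ y + 1 ∧
      bugLevel p k₁ k₂ y ≤ bugLevel p k₁ k₂ x + 1 := by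
  unfold bug
  rw [SimpleGraph.fromRel_adj]
  apply and_congr_right
  intro hne
  rcases x with a | i | i <;> rcases y with b | j | j
  · have : a.1 ≠ b.1 := fun h => hne (by rw [Fin.ext h])
    simp only [bugRel, bugLevel]
    split_ifs <;> omega
  · have := j.2
    simp only [bugRel, bugLevel, or_false]
    split_ifs <;> omega
  · have := j.2
    simp only [bugRel, bugLevel, or_false]
    split_ifs <;> omega
  · have := i.2
    simp only [bugRel, bugLevel, false_or]
    split_ifs <;> omega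
  · have h1 := i.2
    have h2 := j.2
    have : i.1 ≠ j.1 := fun h => hne (by rw [Fin.ext h])
    simp only [bugRel, bugLevel]
    omega
  · have h1 := i.2
    have h2 := j.2
    simp only [bugRel, bugLevel, or_false, false_iff]
    omega
  · have := i.2
    simp only [bugRel, bugLevel, false_or]
    split_ifs <;> omega
  · have h1 := i.2
    have h2 := j.2
    simp only [bugRel, bugLevel, or_false, false_iff]
    omega
  · have h1 := i.2
    have h2 := j.2
    have : i.1 ≠ j.1 := fun h => hne (by rw [Fin.ext h])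
    simp only [bugRel, bugLevel]
    omega

/-- representatives of the levels of the bug -/
def bugRep (p k₁ k₂ : ℕ) (hp : 3 ≤ p) (i : ℕ) : Fin p ⊕ Fin k₁ ⊕ Fin k₂ :=
  if h : i < k₁ then .inr (.inl ⟨k₁ - 1 - i, by omega⟩)
  else if i = k₁ then .inl ⟨0, by omega⟩
  else if i = k₁ + 1 then .inl ⟨2, by omega⟩
  else if i = k₁ + 2 then .inl ⟨1, by omega⟩
  else if h' : i - (k₁ + 3) < k₂ then .inr (.inr ⟨i - (k₁ + 3), h'⟩) else .inl ⟨0, by omega⟩

lemma bugRep_level (p k₁ k₂ : ℕ) (hp : 3 ≤ p) (i : ℕ) (hi : i ≤ k₁ + k₂ + 2) :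
    bugLevel p k₁ k₂ (bugRep p k₁ k₂ hp i) = i := by
  unfold bugRep
  split_ifs with h1 h2 h3 h4 h5
  · simp only [bugLevel]; omega
  · simp only [bugLevel]; simp; omega
  · simp only [bugLevel]; simp; omega
  · simp only [bugLevel]; simp; omega
  · simp only [bugLevel]; omega
  · omega

lemma bugRep_rest (p k₁ k₂ : ℕ) (hp : 3 ≤ p) (v : Fin p ⊕ Fin k₁ ⊕ Fin k₂)
    (h : ∀ i, i ≤ k₁ + k₂ + 2 → bugRep p k₁ k₂ hp i ≠ v) : bugLevel p k₁ k₂ v = k₁ + 1 := by
  rcases v with a | j | j
  · by_cases h0 : a.1 = 0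
    · exfalso
      apply h k₁ (by omega)
      unfold bugRep
      rw [dif_neg (by omega), if_pos rfl]
      congr 1
      exact Fin.ext h0.symm
    · by_cases h1 : a.1 = 1
      · exfalso
        apply h (k₁ + 2) (by omega)
        unfold bugRep
        rw [dif_neg (by omega), if_neg (by omega), if_neg (by omega), if_pos rfl]
        congr 1
        exact Fin.ext h1.symm
      · simp only [bugLevel]
        rw [if_neg h0, if_neg h1]
  · exfalso
    have hj := j.2
    apply h (k₁ - 1 - j.1) (by omega)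
    unfold bugRep
    rw [dif_pos (by omega)]
    congr 2
    apply Fin.ext
    show k₁ - 1 - (k₁ - 1 - j.1) = j.1
    omega
  · exfalso
    have hj := j.2
    apply h (k₁ + 3 + j.1) (by omega)
    unfold bugRep
    rw [dif_neg (by omega), if_neg (by omega), if_neg (by omega), if_neg (by omega),
      dif_pos (by omega)]
    congr 2
    apply Fin.ext
    show k₁ + 3 + j.1 - (k₁ + 3) = j.1
    omega

lemma bugLevel_le (p k₁ k₂ : ℕ) (v : Fin p ⊕ Fin k₁ ⊕ Fin k₂) :
    bugLevel p k₁ k₂ v ≤ k₁ + k₂ + 2 := by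
  rcases v with a | j | j
  · simp only [bugLevel]; split_ifs <;> omega
  · simp only [bugLevel]; omega
  · have := j.2
    simp only [bugLevel]; omega

lemma bug_walk (p k₁ k₂ : ℕ) (hp : 3 ≤ p) : ∀ k, 1 ≤ k → ∀ x y : Fin p ⊕ Fin k₁ ⊕ Fin k₂,
    bugLevel p k₁ k₂ y = bugLevel p k₁ k₂ x + k →
      ∃ w : (bug p k₁ k₂).Walk x y, w.length = k := by
  intro k hk
  induction k, hk using Nat.le_induction with
  | base =>
    intro x y h
    have hxy : x ≠ y := by rintro rfl; omega
    have : (bug p k₁ k₂).Adj x y := (bug_adj p k₁ k₂ x y).2 ⟨hxy, by omega, by omega⟩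
    exact ⟨this.toWalk, rfl⟩
  | succ k hk ih =>
    intro x y h
    have h1 := bugLevel_le p k₁ k₂ y
    have h2 := bugRep_level p k₁ k₂ hp (bugLevel p k₁ k₂ x + 1) (by omega)
    set z := bugRep p k₁ k₂ hp (bugLevel p k₁ k₂ x + 1) with hz
    obtain ⟨w, hw⟩ := ih z y (by omega)
    have hxz : x ≠ z := by
      intro h'
      rw [← h'] at h2
      omega
    have : (bug p k₁ k₂).Adj x z := (bug_adj p k₁ k₂ x z).2 ⟨hxz, by omega, by omega⟩
    exact ⟨SimpleGraph.Walk.cons this w, by rw [SimpleGraph.Walk.length_cons, hw]⟩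

lemma bug_walk' (p k₁ k₂ : ℕ) (hp : 3 ≤ p) (x y : Fin p ⊕ Fin k₁ ⊕ Fin k₂) (hxy : x ≠ y) :
    ∃ w : (bug p k₁ k₂).Walk x y,
      w.length = gap (bugLevel p k₁ k₂ x) (bugLevel p k₁ k₂ y) := by
  rcases Nat.lt_trichotomy (bugLevel p k₁ k₂ x) (bugLevel p k₁ k₂ y) with h | h | h
  · obtain ⟨w, hw⟩ := bug_walk p k₁ k₂ hp
      (bugLevel p k₁ k₂ y - bugLevel p k₁ k₂ x) (by omega) x y (by omega)
    refine ⟨w, ?_⟩
    rw [hw]; unfold gap; omega
  · have : (bug p k₁ k₂).Adj x y := (bug_adj p k₁ k₂ x y).2 ⟨hxy, by omega, by omega⟩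
    refine ⟨this.toWalk, ?_⟩
    rw [h, gap_self]; rfl
  · obtain ⟨w, hw⟩ := bug_walk p k₁ k₂ hp
      (bugLevel p k₁ k₂ x - bugLevel p k₁ k₂ y) (by omega) y x (by omega)
    refine ⟨w.reverse, ?_⟩
    rw [SimpleGraph.Walk.length_reverse, hw]; unfold gap; omega

lemma bug_connected (p k₁ k₂ : ℕ) (hp : 3 ≤ p) : (bug p k₁ k₂).Connected := by
  rw [SimpleGraph.connected_iff]
  refine ⟨fun x y => ?_, ⟨.inl ⟨0, by omega⟩⟩⟩
  by_cases hxy : x = y
  · subst hxy; exact SimpleGraph.Reachable.refl _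
  · obtain ⟨w, _⟩ := bug_walk' p k₁ k₂ hp x y hxy
    exact ⟨w⟩

lemma bug_diameter (p k₁ k₂ : ℕ) (hp : 3 ≤ p) : k₁ + k₂ + 2 ≤ diameter (bug p k₁ k₂) := by
  set x := bugRep p k₁ k₂ hp 0 with hx
  set y := bugRep p k₁ k₂ hp (k₁ + k₂ + 2) with hy
  have h1 := bugRep_level p k₁ k₂ hp 0 (by omega)
  have h2 := bugRep_level p k₁ k₂ hp (k₁ + k₂ + 2) le_rfl
  obtain ⟨w, hw⟩ := (bug_connected p k₁ k₂ hp).exists_walk_length_eq_dist x y
  have h3 := walk_level (bug p k₁ k₂) (bugLevel p k₁ k₂)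
    (fun u v h => ((bug_adj p k₁ k₂ u v).1 h).2.2) w
  have h4 := le_diameter (bug p k₁ k₂) x y
  rw [← hx] at h1
  rw [← hy] at h2
  omega

lemma bug_sum (p k₁ k₂ : ℕ) (hp : 3 ≤ p) :
    ∑ u, ∑ v, (bug p k₁ k₂).dist u v ≤ least (p + k₁ + k₂) (k₁ + k₂ + 2) (k₁ + 1) := by
  classical
  have h1 := total_exact (bugLevel p k₁ k₂) (k₁ + k₂ + 2) (k₁ + 1) (bugRep p k₁ k₂ hp)
    (bugRep_level p k₁ k₂ hp) (bugRep_rest p k₁ k₂ hp)
  have h2 : Fintype.card (Fin p ⊕ Fin k₁ ⊕ Fin k₂) = p + k₁ + k₂ := by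
    simp [Fintype.card_sum, Nat.add_assoc]
  rw [h2] at h1
  rw [← h1]
  unfold total
  apply Finset.sum_le_sum
  intro u _
  apply Finset.sum_le_sum
  intro v _
  split_ifs with huv
  · subst huv
    simp
  · obtain ⟨w, hw⟩ := bug_walk' p k₁ k₂ hp u v huv
    rw [← hw]
    exact SimpleGraph.dist_le w

/-- the sum of the distances is at least `n (n - 1)` -/
lemma sum_dist_ge {V : Type} [Fintype V] [DecidableEq V] (G : SimpleGraph V)
    (hG : G.Connected) :
    Fintype.card V * (Fintype.card V - 1) ≤ ∑ u, ∑ v, G.dist u v := by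
  rw [← smul_eq_mul, ← Finset.card_univ]
  apply Finset.card_nsmul_le_sum
  intro u hu
  rw [← Finset.add_sum_erase _ _ hu, SimpleGraph.dist_self, Nat.zero_add,
    ← Finset.card_erase_of_mem hu, Finset.card_eq_sum_ones]
  apply Finset.sum_le_sum
  intro v hv
  exact hG.pos_dist_of_ne (Finset.ne_of_mem_erase hv).symm

lemma ratio_eq {V : Type} [Fintype V] (G : SimpleGraph V) :
    ratio G = (diameter G : ℝ) * ((Fintype.card V : ℝ) * ((Fintype.card V : ℝ) - 1)) /
      ((∑ u, ∑ v, G.dist u v : ℕ) : ℝ) := by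
  unfold ratio avgDist
  push_cast
  rw [div_div_eq_mul_div]

/-- the balanced bug of diameter `D` beats every graph of diameter `D` -/
lemma compare (n : ℕ) (hn : 3 ≤ n) (G : SimpleGraph (Fin n)) (hG : G.Connected)
    (k₁ k₂ p : ℕ) (hp : 3 ≤ p) (hpn : p + k₁ + k₂ = n) (hD : diameter G = k₁ + k₂ + 2)
    (hb1 : k₁ ≤ k₂ + 1) (hb2 : k₂ ≤ k₁ + 1) : ratio G ≤ ratio (bug p k₁ k₂) := by
  classical
  obtain ⟨-, h1⟩ := sum_dist_lower G hG (k₁ + k₂ + 2) (k₁ + 1) hD (by omega) (by omega) (by omega)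
  have h2 := bug_sum p k₁ k₂ hp
  have h3 := bug_diameter p k₁ k₂ hp
  have h4 := sum_dist_ge (bug p k₁ k₂) (bug_connected p k₁ k₂ hp)
  have hcard : Fintype.card (Fin p ⊕ Fin k₁ ⊕ Fin k₂) = n := by
    simp [Fintype.card_sum, ← hpn, Nat.add_assoc]
  rw [hpn] at h2
  rw [Fintype.card_fin] at h1
  rw [hcard] at h4
  rw [ratio_eq, ratio_eq, hcard, Fintype.card_fin, hD]
  have hn1 : (0 : ℝ) < (n : ℝ) * ((n : ℝ) - 1) := by
    have : (3 : ℝ) ≤ n := by exact_mod_cast hn
    apply mul_pos <;> linarith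
  have h5 : (0 : ℝ) < ((∑ u, ∑ v, (bug p k₁ k₂).dist u v : ℕ) : ℝ) := by
    have : 0 < n * (n - 1) := Nat.mul_pos (by omega) (by omega)
    exact_mod_cast lt_of_lt_of_le this h4
  apply div_le_div₀
  · positivity
  · apply mul_le_mul_of_nonneg_right _ hn1.le
    exact_mod_cast h3
  · exact h5
  · exact_mod_cast h2.trans h1

/-- graphs of diameter at most one -/
lemma compare_one (n : ℕ) (hn : 3 ≤ n) (G : SimpleGraph (Fin n)) (hG : G.Connected)
    (hD : diameter G ≤ 1) : ratio G ≤ ratio (bug n 0 0) := by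
  classical
  have h2 := bug_sum n 0 0 hn
  have h3 := bug_diameter n 0 0 hn
  have h4 := sum_dist_ge (bug n 0 0) (bug_connected n 0 0 hn)
  have h5 := sum_dist_ge G hG
  have hcard : Fintype.card (Fin n ⊕ Fin 0 ⊕ Fin 0) = n := by simp
  rw [Fintype.card_fin] at h5
  rw [hcard] at h4
  have h6 : least (n + 0 + 0) (0 + 0 + 2) (0 + 1) ≤ n * (n - 1) + 2 := by
    obtain ⟨m, rfl⟩ : ∃ m, n = m + 3 := ⟨n - 3, by omega⟩
    have e1 : allSum 2 = 8 := by decide
    have e2 : rowSum 2 1 = 3 := by decide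
    unfold least
    simp only [Nat.add_zero, Nat.zero_add, e1, e2]
    have e3 : m + 3 - (2 + 1) = m := by omega
    have e4 : m + 3 - 1 = m + 2 := by omega
    rw [e3, e4]
    rcases Nat.eq_zero_or_pos m with h | h
    · subst h; norm_num
    · obtain ⟨q, rfl⟩ : ∃ q, m = q + 1 := ⟨m - 1, by omega⟩
      have e5 : q + 1 - 1 = q := by omega
      rw [e5]
      nlinarith
  have h7 : ((∑ u, ∑ v, (bug n 0 0).dist u v : ℕ) : ℝ) ≤ (n : ℝ) * ((n : ℝ) - 1) + 2 := by
    have h8 := h2.trans h6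
    have h9 : (((n * (n - 1) + 2 : ℕ)) : ℝ) = (n : ℝ) * ((n : ℝ) - 1) + 2 := by
      push_cast [Nat.cast_sub (show 1 ≤ n by omega)]
      ring
    rw [← h9]
    exact_mod_cast h8
  have h10 : (n : ℝ) * ((n : ℝ) - 1) ≤ ((∑ u, ∑ v, G.dist u v : ℕ) : ℝ) := by
    have h9 : (((n * (n - 1) : ℕ)) : ℝ) = (n : ℝ) * ((n : ℝ) - 1) := by
      push_cast [Nat.cast_sub (show 1 ≤ n by omega)]
      ring
    rw [← h9]
    exact_mod_cast h5
  have hn3 : (3 : ℝ) ≤ n := by exact_mod_cast hn
  have hn1 : (6 : ℝ) ≤ (n : ℝ) * ((n : ℝ) - 1) := by nlinarith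
  rw [ratio_eq, ratio_eq, hcard, Fintype.card_fin]
  have h11 : (0 : ℝ) < ((∑ u, ∑ v, (bug n 0 0).dist u v : ℕ) : ℝ) := by
    have : 0 < n * (n - 1) := Nat.mul_pos (by omega) (by omega)
    exact_mod_cast lt_of_lt_of_le this h4
  have h12 : (diameter G : ℝ) ≤ 1 := by exact_mod_cast hD
  have h13 : (2 : ℝ) ≤ (diameter (bug n 0 0) : ℝ) := by exact_mod_cast h3
  rw [div_le_div_iff₀ (by linarith) h11]
  set S := ((∑ u, ∑ v, G.dist u v : ℕ) : ℝ)
  set S' := ((∑ u, ∑ v, (bug n 0 0).dist u v : ℕ) : ℝ)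
  set N := (n : ℝ) * ((n : ℝ) - 1)
  have h14 : (diameter G : ℝ) * N * S' ≤ 1 * N * (N + 2) := by
    apply mul_le_mul _ h7 h11.le (by positivity)
    apply mul_le_mul_of_nonneg_right h12 (by linarith)
  have h15 : 2 * N * N ≤ (diameter (bug n 0 0) : ℝ) * N * S := by
    apply mul_le_mul _ h10 (by linarith) (by positivity)
    apply mul_le_mul_of_nonneg_right h13 (by linarith)
  nlinarith

/-- For every `n ≥ 3` the maximum of `D / l` (diameter over average distance) over the connected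
graphs on `n` vertices is attained by a balanced bug on `n` vertices. -/
theorem result (n : ℕ) (hn : 3 ≤ n) :
    ∃ p k₁ k₂ : ℕ, 3 ≤ p ∧ p + k₁ + k₂ = n ∧ k₁ ≤ k₂ + 1 ∧ k₂ ≤ k₁ + 1 ∧
      (bug p k₁ k₂).Connected ∧
      ∀ G : SimpleGraph (Fin n), G.Connected → ratio G ≤ ratio (bug p k₁ k₂) := by
  classical
  -- the best balanced bug
  let T : Finset ℕ := Finset.range (n - 2)
  let r : ℕ → ℝ := fun d => ratio (bug (n - d) (d / 2) (d - d / 2))
  obtain ⟨d, hd, hmax⟩ := T.exists_max_image r ⟨0, by simp [T]; omega⟩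
  rw [Finset.mem_range] at hd
  refine ⟨n - d, d / 2, d - d / 2, by omega, by omega, by omega, by omega,
    bug_connected _ _ _ (by omega), fun G hG => ?_⟩
  have hle : ∀ e, e < n - 2 → r e ≤ r d := fun e he => hmax e (Finset.mem_range.2 he)
  rcases Nat.lt_or_ge (diameter G) 2 with h | h
  · refine (compare_one n hn G hG (by omega)).trans ?_
    have := hle 0 (by omega)
    exact this
  · obtain ⟨e, he⟩ : ∃ e, diameter G = e + 2 := ⟨diameter G - 2, by omega⟩
    have h1 := (sum_dist_lower G hG (e + 2) ((e + 2) / 2) he (by omega) (by omega) (by omega)).1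
    rw [Fintype.card_fin] at h1
    refine (compare n hn G hG (e / 2) (e - e / 2) (n - e) (by omega) (by omega) ?_ (by omega)
      (by omega)).trans (hle e (by omega))
    rw [he]
    omega

end Pool.Agent.Results.MP_aedb6c_co.BalancedBug
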